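import Pool.Agent.Helper593.Lac10

open MeasureTheory Set
open scoped ENNReal NNReal
open Pool.Agent.Helper593.Lac

namespace Pool.Agent.Results.MP_cb927e_an.LacunaryFlat

/-- For every `p > 3` and every `1 < p < (√13 - 1)/2` (that is `p > 1`, `p² + p < 3`) there is a
bounded convex open plane set `Ω ∋ 0` satisfying `(G_p)` whose lacunary maximal operator is
unbounded on `L^p(ℝ²)`. -/
theorem result : ∀ p : ℝ, (3 < p ∨ (1 < p ∧ p ^ 2 + p < 3)) →
    ∃ Ω : Set E2, Bornology.IsBounded Ω ∧ IsOpen Ω ∧ Convex ℝ Ω ∧ (0 : E2) ∈ Ω ∧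
      CondG Ω p ∧ ¬ MaxBounded Ω p :=
  final

end Pool.Agent.Results.MP_cb927e_an.LacunaryFlat
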